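import Mathlib

set_option autoImplicit false

/-! A ratio lemma for two monotone functions which are compared on blocks. -/

namespace Pool.Agent.Q48.CS

open Filter Topology

/-- Let `s (j+1) = s j + R j * p j`, and let `U, V` be monotone.  If on the blocks
`(s j + l p j, s j + (l+1) p j]` the increments satisfy `|ΔU - c ΔV| ≤ ε ΔV` and
`ΔV ≤ ε V (s j)` for large `j`, then `U / V → c`. -/
theorem ratio_lemma (s R p : ℕ → ℕ) (hs : ∀ j, s (j + 1) = s j + R j * p j)
    (hR : ∀ j, 1 ≤ R j) (hp : ∀ j, 1 ≤ p j)
    (U V : ℕ → ℝ) (hU : Monotone U) (hV : Monotone V) (hVt : Tendsto V atTop atTop)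
    (c : ℝ) (hc : 0 ≤ c)
    (h : ∀ ε : ℝ, 0 < ε → ∃ J : ℕ, ∀ j : ℕ, J ≤ j → ∀ l < R j,
      |(U (s j + (l + 1) * p j) - U (s j + l * p j)) -
        c * (V (s j + (l + 1) * p j) - V (s j + l * p j))| ≤
          ε * (V (s j + (l + 1) * p j) - V (s j + l * p j)) ∧
      V (s j + (l + 1) * p j) - V (s j + l * p j) ≤ ε * V (s j)) :
    Tendsto (fun n => U n / V n) atTop (𝓝 c) := by
  have hsmono : StrictMono s := by
    apply strictMono_nat_of_lt_succ
    intro j
    rw [hs]
    have := Nat.mul_pos (hR j) (hp j)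
    omega
  rw [Metric.tendsto_atTop]
  intro η hη
  -- choose ε
  obtain ⟨ε, hε, hε1, hεη⟩ : ∃ ε : ℝ, 0 < ε ∧ ε ≤ 1 ∧ ε * (2 + 2 * c + 1) < η := by
    refine ⟨min 1 (η / (2 * (2 + 2 * c + 1))), by positivity, min_le_left _ _, ?_⟩
    have h1 : (0 : ℝ) < 2 + 2 * c + 1 := by positivity
    calc min 1 (η / (2 * (2 + 2 * c + 1))) * (2 + 2 * c + 1) ≤
        η / (2 * (2 + 2 * c + 1)) * (2 + 2 * c + 1) :=
          mul_le_mul_of_nonneg_right (min_le_right _ _) h1.le
      _ = η / 2 := by field_simp
      _ < η := by linarith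
  obtain ⟨J, hJ⟩ := h ε hε
  set D : ℕ → ℝ := fun n => U n - c * V n with hD
  -- a positive point
  obtain ⟨J', hJ', hVpos⟩ : ∃ J', J ≤ J' ∧ 0 < V (s J') := by
    have h1 : Tendsto (fun j => V (s j)) atTop atTop := hVt.comp hsmono.tendsto_atTop
    obtain ⟨a, ha⟩ := (h1.eventually (eventually_gt_atTop 0)).exists_forall_of_atTop
    exact ⟨max a J, le_max_right _ _, ha _ (le_max_left _ _)⟩
  have hVs : ∀ j, J' ≤ j → 0 < V (s j) := fun j hj =>
    lt_of_lt_of_le hVpos (hV (hsmono.monotone hj))
  have key : ∀ j, J' ≤ j → |D (s j)| ≤ |D (s J')| + ε * (V (s j) - V (s J')) ∧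
      ∀ l ≤ R j, |D (s j + l * p j)| ≤ |D (s J')| + ε * (V (s j + l * p j) - V (s J')) := by
    intro j hj
    induction j, hj using Nat.le_induction with
    | base =>
      refine ⟨by simp, ?_⟩
      intro l
      induction l with
      | zero => intro _; simp
      | succ l ih =>
        intro hl
        have h1 := ih (by omega)
        obtain ⟨h2, _⟩ := hJ J' hJ' l (by omega)
        have e : D (s J' + (l + 1) * p J') = D (s J' + l * p J') +
            ((U (s J' + (l + 1) * p J') - U (s J' + l * p J')) -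
            c * (V (s J' + (l + 1) * p J') - V (s J' + l * p J'))) := by
          simp only [hD]; ring
        rw [e]
        refine (abs_add_le _ _).trans ?_
        linarith
    | succ j hj ih =>
      have h0 : |D (s (j + 1))| ≤ |D (s J')| + ε * (V (s (j + 1)) - V (s J')) := by
        have := ih.2 (R j) le_rfl
        rwa [← hs] at this
      refine ⟨h0, ?_⟩
      intro l
      induction l with
      | zero => intro _; simpa using h0
      | succ l ih =>
        intro hl
        have h1 := ih (by omega)
        obtain ⟨h2, _⟩ := hJ (j + 1) (by omega) l (by omega)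
        have e : D (s (j + 1) + (l + 1) * p (j + 1)) = D (s (j + 1) + l * p (j + 1)) +
            ((U (s (j + 1) + (l + 1) * p (j + 1)) - U (s (j + 1) + l * p (j + 1))) -
            c * (V (s (j + 1) + (l + 1) * p (j + 1)) - V (s (j + 1) + l * p (j + 1)))) := by
          simp only [hD]; ring
        rw [e]
        refine (abs_add_le _ _).trans ?_
        linarith
  obtain ⟨n1, hn1⟩ := (hVt.eventually (eventually_gt_atTop (|D (s J')| / ε))).exists_forall_of_atTop
  refine ⟨max n1 (s J'), fun n hn => ?_⟩
  have hn1' : n1 ≤ n := (le_max_left _ _).trans hn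
  have hn2 : s J' ≤ n := (le_max_right _ _).trans hn
  -- locate n
  obtain ⟨j, hj, hjn, hjn'⟩ : ∃ j, J' ≤ j ∧ s j ≤ n ∧ n < s (j + 1) := by
    have hex : ∃ j, n < s (j + 1) := by
      refine ⟨n, ?_⟩
      have := hsmono.id_le (n + 1)
      simp only [id] at this
      omega
    refine ⟨Nat.find hex, ?_, ?_, Nat.find_spec hex⟩
    · by_contra hlt
      push Not at hlt
      have h1 := Nat.find_spec hex
      have h2 : s (Nat.find hex + 1) ≤ s J' := hsmono.monotone (by omega)
      omega
    · rcases Nat.eq_zero_or_pos (Nat.find hex) with h0 | h0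
      · rw [h0]
        exact (hsmono.monotone (Nat.zero_le _)).trans hn2
      · have := Nat.find_min hex (m := Nat.find hex - 1) (by omega)
        rw [not_lt, Nat.sub_add_cancel h0] at this
        exact this
  set l := (n - s j) / p j with hl
  have hlR : l < R j := by
    rw [hl, Nat.div_lt_iff_lt_mul (hp j)]
    have := hs j
    omega
  have hlow : s j + l * p j ≤ n := by
    have := Nat.div_mul_le_self (n - s j) (p j)
    rw [← hl] at this
    omega
  have hhigh : n ≤ s j + (l + 1) * p j := by
    have h1 := Nat.lt_div_mul_add (a := n - s j) (hp j)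
    rw [← hl] at h1
    have h2 : (l + 1) * p j = l * p j + p j := by ring
    omega
  obtain ⟨h1, h2⟩ := hJ j (hJ'.trans hj) l hlR
  have h3 := (key j hj).2 l hlR.le
  have hUl := hU hlow
  have hUh := hU hhigh
  have hVl := hV hlow
  have hVh := hV hhigh
  have hVn : 0 < V n := lt_of_lt_of_le (hVs j hj) (hV hjn)
  have hVsn : V (s j) ≤ V n := hV hjn
  have hdV : 0 ≤ V (s j + (l + 1) * p j) - V (s j + l * p j) := by linarith
  have hdU : U (s j + (l + 1) * p j) - U (s j + l * p j) ≤
      (c + ε) * (V (s j + (l + 1) * p j) - V (s j + l * p j)) := by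
    have := (abs_le.1 h1).2
    linarith
  have hDn : |D n| ≤ |D (s j + l * p j)| + (U (s j + (l + 1) * p j) - U (s j + l * p j)) +
      c * (V (s j + (l + 1) * p j) - V (s j + l * p j)) := by
    have e : D n = D (s j + l * p j) + ((U n - U (s j + l * p j)) -
        c * (V n - V (s j + l * p j))) := by simp only [hD]; ring
    rw [e]
    refine (abs_add_le _ _).trans ?_
    rw [add_assoc]
    apply add_le_add le_rfl
    refine (abs_sub _ _).trans ?_
    rw [abs_of_nonneg (by linarith), abs_mul, abs_of_nonneg hc, abs_of_nonneg (by linarith)]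
    apply add_le_add
    · linarith
    · exact mul_le_mul_of_nonneg_left (by linarith) hc
  have hK : |D (s J')| < ε * V n := by
    have := hn1 n hn1'
    rw [div_lt_iff₀ hε] at this
    linarith
  have hfin : |D n| < η * V n := by
    have h4 : V (s j + (l + 1) * p j) - V (s j + l * p j) ≤ ε * V n :=
      h2.trans (mul_le_mul_of_nonneg_left hVsn hε.le)
    have h5 : ε * (V (s j + l * p j) - V (s J')) ≤ ε * V n := by
      apply mul_le_mul_of_nonneg_left _ hε.le
      linarith
    have h6 : (U (s j + (l + 1) * p j) - U (s j + l * p j)) +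
      c * (V (s j + (l + 1) * p j) - V (s j + l * p j)) ≤ (2 * c + 1) * (ε * V n) := by
      have h7 : (c + ε) * (V (s j + (l + 1) * p j) - V (s j + l * p j)) ≤
          (c + 1) * (ε * V n) := by
        apply mul_le_mul (by linarith) h4 hdV (by linarith)
      have h8 : c * (V (s j + (l + 1) * p j) - V (s j + l * p j)) ≤ c * (ε * V n) :=
        mul_le_mul_of_nonneg_left h4 hc
      nlinarith
    calc |D n| ≤ |D (s J')| + ε * V n + (2 * c + 1) * (ε * V n) := by linarith
      _ < ε * V n + ε * V n + (2 * c + 1) * (ε * V n) := by linarith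
      _ = ε * (2 + 2 * c + 1) * V n := by ring
      _ ≤ η * V n := mul_le_mul_of_nonneg_right hεη.le hVn.le
  rw [Real.dist_eq]
  have e : U n / V n - c = D n / V n := by
    simp only [hD]; field_simp
  rw [e, abs_div, abs_of_pos hVn, div_lt_iff₀ hVn]
  exact hfin

end Pool.Agent.Q48.CS
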