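import Mathlib
import Pool.Agent.Q48.CS.Ratio

set_option autoImplicit false

/-! The basic sequence and the digits of the example. -/

namespace Pool.Agent.Q48.CS

open Filter Topology Finset

/-- chunk length in stage `j` -/
def Lam (j : ℕ) : ℕ := (j + 2).factorial
/-- base in stage `j` -/
def bb (j : ℕ) : ℕ := 4 * (j + 1) * Lam j
/-- period length in stage `j` -/
def per (j : ℕ) : ℕ := Lam j * bb j ^ (j + 1)
/-- number of periods in stage `j` -/
def RR (j : ℕ) : ℕ := (j + 1) * per (j + 1) * bb (j + 1) ^ (j + 2)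
/-- start of stage `j` -/
def ss : ℕ → ℕ
  | 0 => 0
  | (j + 1) => ss j + RR j * per j

lemma Lam_pos (j : ℕ) : 0 < Lam j := Nat.factorial_pos _

lemma Lam_gt (j : ℕ) : j + 1 < Lam j := by
  unfold Lam
  have := Nat.self_le_factorial (j + 2)
  omega

lemma Lam_ge2 (j : ℕ) : 2 ≤ Lam j := by
  have h := Lam_gt j
  unfold Lam at *
  have : (2 : ℕ).factorial ≤ (j + 2).factorial := Nat.factorial_le (by omega)
  simpa using this

lemma Lam_mono : Monotone Lam := fun i j h => Nat.factorial_le (by omega)

lemma dvd_Lam {m j : ℕ} (hm : 1 ≤ m) (h : m ≤ j + 2) : m ∣ Lam j :=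
  Nat.dvd_factorial hm h

lemma bb_mono : Monotone bb := fun i j h =>
  Nat.mul_le_mul (Nat.mul_le_mul_left _ (by omega)) (Lam_mono h)

lemma bb_ge (j : ℕ) : 8 * (j + 1) ≤ bb j := by
  unfold bb
  have := Lam_ge2 j
  nlinarith

lemma bb_pos (j : ℕ) : 0 < bb j := by have := bb_ge j; omega

lemma bb_ge2 (j : ℕ) : 2 ≤ bb j := by have := bb_ge j; omega

lemma per_pos (j : ℕ) : 0 < per j := Nat.mul_pos (Lam_pos j) (pow_pos (bb_pos j) _)

lemma per_ge (j : ℕ) : j + 1 ≤ per j := by
  unfold per
  calc j + 1 ≤ Lam j := (Lam_gt j).le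
    _ ≤ Lam j * bb j ^ (j + 1) := Nat.le_mul_of_pos_right _ (pow_pos (bb_pos j) _)

lemma RR_pos (j : ℕ) : 0 < RR j :=
  Nat.mul_pos (Nat.mul_pos (by omega) (per_pos _)) (pow_pos (bb_pos _) _)

lemma ss_succ (j : ℕ) : ss (j + 1) = ss j + RR j * per j := rfl

lemma ss_strictMono : StrictMono ss := by
  apply strictMono_nat_of_lt_succ
  intro j
  rw [ss_succ]
  have := Nat.mul_pos (RR_pos j) (per_pos j)
  omega

lemma exists_st (y : ℕ) : ∃ j, y < ss (j + 1) := by
  refine ⟨y, ?_⟩
  have := ss_strictMono.id_le (y + 1)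
  simp only [id] at this
  omega

/-- the stage of the place `y + 1` -/
def st (y : ℕ) : ℕ := Nat.find (exists_st y)

lemma st_lt (y : ℕ) : y < ss (st y + 1) := Nat.find_spec (exists_st y)

lemma ss_st_le (y : ℕ) : ss (st y) ≤ y := by
  rcases Nat.eq_zero_or_pos (st y) with h | h
  · rw [h]; exact Nat.zero_le _
  · have := Nat.find_min (exists_st y) (m := st y - 1) (by unfold st at *; omega)
    rw [not_lt, Nat.sub_add_cancel h] at this
    exact this

lemma st_eq {j y : ℕ} (h1 : ss j ≤ y) (h2 : y < ss (j + 1)) : st y = j := by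
  have h3 := st_lt y
  have h4 := ss_st_le y
  rcases lt_trichotomy (st y) j with h | h | h
  · have := ss_strictMono.monotone (show st y + 1 ≤ j from h)
    omega
  · exact h
  · have := ss_strictMono.monotone (show j + 1 ≤ st y from h)
    omega

lemma st_mono : Monotone st := by
  intro x y hxy
  by_contra h
  push Not at h
  have h1 := st_lt y
  have h2 := ss_st_le x
  have := ss_strictMono.monotone (show st y + 1 ≤ st x from h)
  omega

/-- the basic sequence -/
def qq (i : ℕ) : ℕ := bb (st (i - 1))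

/-- base `b` digits of the number of a chunk -/
def dd (b c t : ℕ) : ℕ := c / b ^ t % b

/-- the `y`-th entry of the chunk with number `c` in stage `j` -/
def val (j c y : ℕ) : ℕ :=
  if y < j + 1 ∧ dd (bb j) c 0 < (j + 1) * Lam j ∧ ∀ t, 1 ≤ t → t ≤ y → dd (bb j) c t < j + 1 then
    (if y = 0 then dd (bb j) c 0 % (j + 1) else dd (bb j) c y)
  else bb j - 1

/-- the digits -/
def EE (i : ℕ) : ℕ :=
  val (st (i - 1)) ((i - 1 - ss (st (i - 1))) % per (st (i - 1)) / Lam (st (i - 1)))
    ((i - 1 - ss (st (i - 1))) % per (st (i - 1)) % Lam (st (i - 1)))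

lemma val_lt (j c y : ℕ) : val j c y < bb j := by
  unfold val
  have hb := bb_ge j
  split_ifs with h h'
  · have := Nat.mod_lt (dd (bb j) c 0) (show 0 < j + 1 by omega)
    omega
  · exact Nat.mod_lt _ (bb_pos j)
  · omega

lemma EE_lt (i : ℕ) : EE i < qq i := val_lt _ _ _

lemma qq_ge2 (i : ℕ) : 2 ≤ qq i := bb_ge2 _

/-- position of the `y`-th entry of the chunk `c` of the period `l` of stage `j` -/
lemma pos_lt {j l c y : ℕ} (hl : l < RR j) (hc : c < bb j ^ (j + 1)) (hy : y < Lam j) :
    ss j + l * per j + c * Lam j + y < ss (j + 1) := by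
  have h1 : c * Lam j + y < per j := by
    unfold per
    calc c * Lam j + y < c * Lam j + Lam j := by omega
      _ = (c + 1) * Lam j := by ring
      _ ≤ bb j ^ (j + 1) * Lam j := Nat.mul_le_mul_right _ hc
      _ = Lam j * bb j ^ (j + 1) := by ring
  have h2 : l * per j + per j ≤ RR j * per j := by
    calc l * per j + per j = (l + 1) * per j := by ring
      _ ≤ RR j * per j := Nat.mul_le_mul_right _ hl
  rw [ss_succ]
  omega

lemma EE_pos {j l c y : ℕ} (hl : l < RR j) (hc : c < bb j ^ (j + 1)) (hy : y < Lam j) :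
    EE (ss j + l * per j + c * Lam j + y + 1) = val j c y := by
  have hst : st (ss j + l * per j + c * Lam j + y) = j :=
    st_eq (by omega) (pos_lt hl hc hy)
  unfold EE
  rw [Nat.add_sub_cancel, hst]
  have h1 : c * Lam j + y < per j := by
    unfold per
    calc c * Lam j + y < c * Lam j + Lam j := by omega
      _ = (c + 1) * Lam j := by ring
      _ ≤ bb j ^ (j + 1) * Lam j := Nat.mul_le_mul_right _ hc
      _ = Lam j * bb j ^ (j + 1) := by ring
  have h2 : ss j + l * per j + c * Lam j + y - ss j = c * Lam j + y + l * per j := by omega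
  rw [h2, Nat.add_mul_mod_self_right, Nat.mod_eq_of_lt h1]
  have h3 : (c * Lam j + y) / Lam j = c := by
    rw [mul_comm, Nat.mul_add_div (Lam_pos j), Nat.div_eq_of_lt hy, add_zero]
  have h4 : (c * Lam j + y) % Lam j = y := by
    rw [mul_comm, Nat.mul_add_mod, Nat.mod_eq_of_lt hy]
  rw [h3, h4]

/-- occurrence of a word in a chunk -/
def oc {k : ℕ} (B : Fin k → ℕ) (j c y : ℕ) : Prop :=
  y + k ≤ j + 1 ∧ ∀ t : Fin k, val j c (y + t) = B t

lemma val_filler {j c y : ℕ} (hy : j + 1 ≤ y) : val j c y = bb j - 1 := by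
  unfold val
  rw [if_neg]
  intro h; omega

lemma occurs_iff {k : ℕ} (hk : 1 ≤ k) (B : Fin k → ℕ) {j l c y : ℕ} (hB : ∀ t, B t < j + 1)
    (hl : l < RR j) (hc : c < bb j ^ (j + 1)) (hy : y < Lam j) :
    (∀ t : Fin k, EE (ss j + l * per j + c * Lam j + y + 1 + t) = B t) ↔ oc B j c y := by
  have hLam := Lam_gt j
  have hb := bb_ge j
  have hEE : ∀ t : ℕ, y + t < Lam j →
      EE (ss j + l * per j + c * Lam j + y + 1 + t) = val j c (y + t) := by
    intro t ht
    rw [← EE_pos hl hc ht]
    congr 1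
    omega
  constructor
  · intro h
    have hyk : y + k ≤ j + 1 := by
      by_contra hcon
      push Not at hcon
      -- a filler inside the block
      by_cases hyj : j + 1 ≤ y
      · have h0 := h ⟨0, hk⟩
        simp only [add_zero] at h0
        have h1 := hEE 0 (by omega)
        rw [add_zero, add_zero] at h1
        rw [h1, val_filler hyj] at h0
        have := hB ⟨0, hk⟩
        omega
      · push Not at hyj
        have h0 := h ⟨j + 1 - y, by omega⟩
        have h1 := hEE (j + 1 - y) (by omega)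
        simp only at h0
        rw [h1, val_filler (by omega)] at h0
        have := hB ⟨j + 1 - y, by omega⟩
        omega
    refine ⟨hyk, fun t => ?_⟩
    rw [← hEE t (by have := t.2; omega)]
    exact h t
  · rintro ⟨h1, h2⟩ t
    rw [hEE t (by have := t.2; omega)]
    exact h2 t

/-- counting numbers below `b ^ h` by their digits -/
lemma card_digits (b h : ℕ) (S : ℕ → Finset ℕ) :
    ((range (b ^ h)).filter (fun c => ∀ t < h, dd b c t ∈ S t)).card =
      ∏ t ∈ range h, ((range b).filter (fun d => d ∈ S t)).card := by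
  classical
  have h1 : ((range (b ^ h)).filter (fun c => ∀ t < h, dd b c t ∈ S t)).card =
      (Finset.univ.filter (fun f : Fin h → Fin b => ∀ t : Fin h, (f t : ℕ) ∈ S t)).card := by
    symm
    apply Finset.card_bij (fun f _ => ((finFunctionFinEquiv f : Fin (b ^ h)) : ℕ))
    · intro f hf
      rw [Finset.mem_filter] at hf
      rw [Finset.mem_filter, Finset.mem_range]
      refine ⟨Fin.is_lt _, fun t ht => ?_⟩
      have h2 := hf.2 ⟨t, ht⟩
      have h3 : (finFunctionFinEquiv.symm (finFunctionFinEquiv f)) ⟨t, ht⟩ = f ⟨t, ht⟩ := by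
        rw [Equiv.symm_apply_apply]
      have h4 := congrArg Fin.val h3
      rw [finFunctionFinEquiv_symm_apply_val] at h4
      unfold dd
      rw [h4]
      exact h2
    · intro f _ g _ hfg
      exact finFunctionFinEquiv.injective (Fin.ext hfg)
    · intro c hc
      rw [Finset.mem_filter, Finset.mem_range] at hc
      refine ⟨finFunctionFinEquiv.symm ⟨c, hc.1⟩, ?_, ?_⟩
      · rw [Finset.mem_filter]
        refine ⟨Finset.mem_univ _, fun t => ?_⟩
        rw [finFunctionFinEquiv_symm_apply_val]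
        exact hc.2 t t.2
      · rw [Equiv.apply_symm_apply]
  rw [h1]
  have h2 : (Finset.univ.filter (fun f : Fin h → Fin b => ∀ t : Fin h, (f t : ℕ) ∈ S t)) =
      Fintype.piFinset (fun t : Fin h => Finset.univ.filter (fun d : Fin b => (d : ℕ) ∈ S t)) := by
    ext f
    simp [Fintype.mem_piFinset]
  rw [h2, Fintype.card_piFinset, Finset.prod_range]
  apply Finset.prod_congr rfl
  intro t _
  refine Finset.card_bij (fun (d : Fin b) _ => (d : ℕ)) ?_ ?_ ?_
  · intro d hd
    rw [Finset.mem_filter] at hd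
    rw [Finset.mem_filter, Finset.mem_range]
    exact ⟨d.2, hd.2⟩
  · intro d _ e _ hde
    exact Fin.ext hde
  · intro d hd
    rw [Finset.mem_filter, Finset.mem_range] at hd
    exact ⟨⟨d, hd.1⟩, Finset.mem_filter.2 ⟨Finset.mem_univ _, hd.2⟩, rfl⟩

end Pool.Agent.Q48.CS
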