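import Mathlib
import Pool.Agent.Q48.CS.Params

set_option autoImplicit false

/-! The number of chunks in which a given word stands at a given place. -/

namespace Pool.Agent.Q48.CS

open Filter Topology Finset

/-- number of chunks in which `B` stands at the place `y` -/
noncomputable def cnt {k : ℕ} (B : Fin k → ℕ) (j y : ℕ) : ℕ := by
  classical
  exact ((range (bb j ^ (j + 1))).filter (fun c => oc B j c y)).card

lemma cnt_none {k : ℕ} (B : Fin k → ℕ) {j y : ℕ} (h : j + 1 < y + k) : cnt B j y = 0 := by
  classical
  unfold cnt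
  rw [Finset.card_eq_zero, Finset.filter_eq_empty_iff]
  intro c _ hc
  have := hc.1
  omega

lemma val_small {j c y v : ℕ} (hv : v < j + 1) (h : val j c y = v) :
    (y < j + 1 ∧ dd (bb j) c 0 < (j + 1) * Lam j ∧ ∀ t, 1 ≤ t → t ≤ y → dd (bb j) c t < j + 1) ∧
      (if y = 0 then dd (bb j) c 0 % (j + 1) else dd (bb j) c y) = v := by
  unfold val at h
  have hb := bb_ge j
  split_ifs at h with h1 h2
  · exact ⟨h1, by rw [if_pos h2]; exact h⟩
  · exact ⟨h1, by rw [if_neg h2]; exact h⟩
  · omega

lemma small_le (j : ℕ) : (j + 1) * Lam j ≤ bb j := by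
  unfold bb
  nlinarith [Lam_pos j]

lemma card_res (a L v b : ℕ) (hv : v < a) (hb : a * L ≤ b) :
    ((range b).filter (fun d => d ∈ (range (a * L)).filter (fun d => d % a = v))).card = L := by
  have h1 : ((range b).filter (fun d => d ∈ (range (a * L)).filter (fun d => d % a = v))) =
      (range (a * L)).filter (fun d => d % a = v) := by
    ext d
    rw [Finset.mem_filter, Finset.mem_range, Finset.mem_filter, Finset.mem_range]
    constructor
    · exact fun h => h.2
    · exact fun h => ⟨by omega, h⟩
  rw [h1]
  have ha : 0 < a := by omega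
  have h2 : (range (a * L)).filter (fun d => d % a = v) = (range L).image (fun l => v + a * l) := by
    ext d
    rw [Finset.mem_filter, Finset.mem_range, Finset.mem_image]
    constructor
    · rintro ⟨h1, h2⟩
      refine ⟨d / a, ?_, ?_⟩
      · rw [Finset.mem_range]
        exact Nat.div_lt_of_lt_mul h1
      · rw [← h2]; exact Nat.mod_add_div d a
    · rintro ⟨l, hl, rfl⟩
      rw [Finset.mem_range] at hl
      constructor
      · calc v + a * l < a + a * l := by omega
          _ = a * (l + 1) := by ring
          _ ≤ a * L := Nat.mul_le_mul_left _ hl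
      · rw [Nat.add_mul_mod_self_left, Nat.mod_eq_of_lt hv]
  rw [h2, Finset.card_image_of_injective _ (fun x y h => by
    have : a * x = a * y := by omega
    exact Nat.eq_of_mul_eq_mul_left ha this), Finset.card_range]

lemma card_single (v b : ℕ) (hv : v < b) :
    ((range b).filter (fun d => d ∈ ({v} : Finset ℕ))).card = 1 := by
  rw [Finset.card_eq_one]
  refine ⟨v, ?_⟩
  ext d
  simp only [Finset.mem_filter, Finset.mem_range, Finset.mem_singleton]
  constructor
  · exact fun h => h.2
  · rintro rfl; exact ⟨hv, rfl⟩

lemma card_full (b : ℕ) : ((range b).filter (fun d => d ∈ range b)).card = b := by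
  rw [Finset.filter_true_of_mem (fun _ h => h), Finset.card_range]

lemma card_low (a b : ℕ) (h : a ≤ b) : ((range b).filter (fun d => d ∈ range a)).card = a := by
  have : (range b).filter (fun d => d ∈ range a) = range a := by
    ext d
    simp only [Finset.mem_filter, Finset.mem_range]
    omega
  rw [this, Finset.card_range]

theorem cnt_zero {k : ℕ} (hk : 1 ≤ k) (B : Fin k → ℕ) {j : ℕ} (hB : ∀ t, B t < j + 1)
    (hkj : k ≤ j + 1) : cnt B j 0 = Lam j * bb j ^ (j + 1 - k) := by
  classical
  have hb := bb_ge j
  have hsm := small_le j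
  set b := bb j with hbdef
  let S : ℕ → Finset ℕ := fun t =>
    if t = 0 then (range ((j + 1) * Lam j)).filter (fun d => d % (j + 1) = B ⟨0, hk⟩)
    else if h : t < k then {B ⟨t, h⟩} else range b
  have h1 : ∀ c ∈ range (b ^ (j + 1)), (oc B j c 0 ↔ ∀ t < j + 1, dd b c t ∈ S t) := by
    intro c _
    constructor
    · rintro ⟨_, h2⟩ t ht
      simp only [S]
      split_ifs with h3 h4
      · subst h3
        have h5 := val_small (hB ⟨0, hk⟩) (h2 ⟨0, hk⟩)
        rw [Finset.mem_filter, Finset.mem_range]
        refine ⟨h5.1.2.1, ?_⟩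
        have h6 := h5.2
        rw [if_pos (by rfl)] at h6
        exact h6
      · have h5 := val_small (hB ⟨t, h4⟩) (h2 ⟨t, h4⟩)
        have h6 := h5.2
        simp only [zero_add] at h6
        rw [if_neg h3] at h6
        rw [Finset.mem_singleton]
        exact h6
      · rw [Finset.mem_range]
        exact Nat.mod_lt _ (by omega)
    · intro h2
      refine ⟨by omega, fun t => ?_⟩
      have ht := t.2
      have h0 := h2 0 (by omega)
      simp only [S, if_pos] at h0
      rw [Finset.mem_filter, Finset.mem_range] at h0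
      rw [zero_add]
      unfold val
      rw [if_pos]
      · split_ifs with h3
        · have : t = ⟨0, hk⟩ := Fin.ext h3
          rw [this]; exact h0.2
        · have h4 := h2 t (by omega)
          simp only [S, if_neg h3] at h4
          rw [dif_pos ht, Finset.mem_singleton] at h4
          exact h4
      · refine ⟨by omega, h0.1, fun u hu1 hu2 => ?_⟩
        have h4 := h2 u (by omega)
        simp only [S, if_neg (show u ≠ 0 by omega)] at h4
        rw [dif_pos (by omega), Finset.mem_singleton] at h4
        have h5 := hB ⟨u, by omega⟩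
        change dd b c u < j + 1
        rw [h4]; exact h5
  unfold cnt
  rw [Finset.filter_congr h1, card_digits, ← Finset.prod_range_mul_prod_Ico _ hkj]
  have e1 : ∏ t ∈ range k, ((range b).filter (fun d => d ∈ S t)).card = Lam j := by
    rw [← Finset.prod_range_mul_prod_Ico _ hk, Finset.prod_range_one]
    have e2 : ((range b).filter (fun d => d ∈ S 0)).card = Lam j := by
      simp only [S, if_pos]
      exact card_res _ _ _ _ (hB _) hsm
    rw [e2]
    rw [Finset.prod_eq_one, mul_one]
    intro t ht
    rw [Finset.mem_Ico] at ht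
    simp only [S, if_neg (show t ≠ 0 by omega), dif_pos ht.2]
    apply card_single
    have := hB ⟨t, ht.2⟩
    omega
  have e3 : ∏ t ∈ Ico k (j + 1), ((range b).filter (fun d => d ∈ S t)).card = b ^ (j + 1 - k) := by
    rw [Finset.prod_congr rfl (g := fun _ => b), Finset.prod_const, Nat.card_Ico]
    intro t ht
    rw [Finset.mem_Ico] at ht
    simp only [S, if_neg (show t ≠ 0 by omega), dif_neg (show ¬ t < k by omega)]
    exact card_full b
  rw [e1, e3]

theorem cnt_le {k : ℕ} (hk : 1 ≤ k) (B : Fin k → ℕ) {j y : ℕ} (hB : ∀ t, B t < j + 1) (hy : 1 ≤ y)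
    (hyk : y + k ≤ j + 1) :
    cnt B j y ≤ Lam j * (j + 1) ^ y * bb j ^ (j + 1 - k - y) := by
  classical
  have hb := bb_ge j
  have hsm := small_le j
  set b := bb j with hbdef
  let S : ℕ → Finset ℕ := fun t =>
    if t = 0 then range ((j + 1) * Lam j)
    else if t < y then range (j + 1)
    else if h : t - y < k then {B ⟨t - y, h⟩} else range b
  have h1 : ∀ c ∈ range (b ^ (j + 1)), (oc B j c y → ∀ t < j + 1, dd b c t ∈ S t) := by
    intro c _
    rintro ⟨_, h2⟩ t ht
    have h5 := val_small (hB ⟨0, hk⟩) (h2 ⟨0, hk⟩)
    simp only [add_zero] at h5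
    simp only [S]
    split_ifs with h3 h4 h6
    · rw [Finset.mem_range, h3]
      exact h5.1.2.1
    · rw [Finset.mem_range]
      exact h5.1.2.2 t (by omega) (by omega)
    · have h7 := val_small (hB ⟨t - y, h6⟩) (h2 ⟨t - y, h6⟩)
      have h8 := h7.2
      simp only at h8
      rw [Nat.add_sub_cancel' (by omega), if_neg h3] at h8
      rw [Finset.mem_singleton]
      exact h8
    · rw [Finset.mem_range]
      exact Nat.mod_lt _ (by omega)
  unfold cnt
  have h2 : ((range (b ^ (j + 1))).filter (fun c => oc B j c y)).card ≤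
      ((range (b ^ (j + 1))).filter (fun c => ∀ t < j + 1, dd b c t ∈ S t)).card := by
    apply Finset.card_le_card
    intro c hc
    rw [Finset.mem_filter] at hc ⊢
    exact ⟨hc.1, h1 c hc.1 hc.2⟩
  refine h2.trans ?_
  rw [card_digits, ← Finset.prod_range_mul_prod_Ico _ (show y + k ≤ j + 1 from hyk),
    ← Finset.prod_range_mul_prod_Ico _ (show y ≤ y + k by omega)]
  have e1 : ∏ t ∈ range y, ((range b).filter (fun d => d ∈ S t)).card = Lam j * (j + 1) ^ y := by
    rw [← Finset.prod_range_mul_prod_Ico _ hy, Finset.prod_range_one]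
    have e2 : ((range b).filter (fun d => d ∈ S 0)).card = (j + 1) * Lam j := by
      simp only [S, if_pos]
      exact card_low _ _ hsm
    rw [e2, Finset.prod_congr rfl (g := fun _ => j + 1), Finset.prod_const, Nat.card_Ico]
    · obtain ⟨y', rfl⟩ : ∃ y', y = y' + 1 := ⟨y - 1, by omega⟩
      rw [Nat.add_sub_cancel]; ring
    · intro t ht
      rw [Finset.mem_Ico] at ht
      simp only [S, if_neg (show t ≠ 0 by omega), if_pos ht.2]
      exact card_low _ _ (by omega)
  have e2 : ∏ t ∈ Ico y (y + k), ((range b).filter (fun d => d ∈ S t)).card = 1 := by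
    apply Finset.prod_eq_one
    intro t ht
    rw [Finset.mem_Ico] at ht
    simp only [S, if_neg (show t ≠ 0 by omega), if_neg (show ¬ t < y by omega),
      dif_pos (show t - y < k by omega)]
    apply card_single
    have := hB ⟨t - y, by omega⟩
    omega
  have e3 : ∏ t ∈ Ico (y + k) (j + 1), ((range b).filter (fun d => d ∈ S t)).card =
      b ^ (j + 1 - k - y) := by
    rw [Finset.prod_congr rfl (g := fun _ => b), Finset.prod_const, Nat.card_Ico]
    · congr 1; omega
    intro t ht
    rw [Finset.mem_Ico] at ht
    simp only [S, if_neg (show t ≠ 0 by omega), if_neg (show ¬ t < y by omega),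
      dif_neg (show ¬ t - y < k by omega)]
    exact card_full b
  rw [e1, e2, e3, mul_one]

end Pool.Agent.Q48.CS
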