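import Mathlib
import Pool.Agent.Q48.CS.Count

set_option autoImplicit false

/-! The sums over a period. -/

namespace Pool.Agent.Q48.CS

open Filter Topology Finset

lemma sum_shift (f : ℕ → ℝ) (A L : ℕ) :
    ∑ i ∈ Ioc A (A + L), f i = ∑ y ∈ range L, f (A + y + 1) := by
  induction L with
  | zero => simp
  | succ L ih =>
    rw [Finset.sum_range_succ, ← ih, ← add_assoc, Finset.sum_Ioc_succ_top (by omega)]

lemma sum_blocks (f : ℕ → ℝ) (A C L : ℕ) :
    ∑ i ∈ Ioc A (A + C * L), f i = ∑ c ∈ range C, ∑ y ∈ range L, f (A + c * L + y + 1) := by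
  induction C with
  | zero => simp
  | succ C ih =>
    rw [Finset.sum_range_succ, ← ih, ← sum_shift]
    rw [show A + (C + 1) * L = A + C * L + L by ring]
    rw [Finset.sum_Ioc_consecutive _ (by omega) (by omega)]

lemma sum_res (A g m r : ℕ) (hr : r < m) :
    ∑ i ∈ Ioc A (A + g * m), (if i % m = r then (1 : ℝ) else 0) = g := by
  rw [sum_blocks]
  have h1 : ∀ c ∈ range g, ∑ y ∈ range m, (if (A + c * m + y + 1) % m = r then (1 : ℝ) else 0) =
      1 := by
    intro c _
    rw [← sum_shift (fun i => if i % m = r then (1 : ℝ) else 0)]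
    rw [Finset.sum_boole]
    have h2 : Ioc (A + c * m) (A + c * m + m) = Ico (A + c * m + 1) (A + c * m + 1 + m) := by
      ext i; simp only [Finset.mem_Ioc, Finset.mem_Ico]; omega
    rw [h2, Nat.filter_Ico_card_eq_of_periodic _ m (fun i => i % m = r) (fun i => by
      simp), Nat.count_eq_card_filter_range]
    have h3 : (range m).filter (fun i => i % m = r) = {r} := by
      ext i
      simp only [Finset.mem_filter, Finset.mem_range, Finset.mem_singleton]
      constructor
      · rintro ⟨h1, h2⟩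
        rwa [Nat.mod_eq_of_lt h1] at h2
      · rintro rfl; exact ⟨hr, Nat.mod_eq_of_lt hr⟩
    rw [h3]; simp
  rw [Finset.sum_congr rfl h1]; simp

/-- indicator of an occurrence -/
noncomputable def uu {k : ℕ} (B : Fin k → ℕ) (m r i : ℕ) : ℝ := by
  classical
  exact if i % m = r ∧ ∀ t : Fin k, EE (i + t) = B t then 1 else 0

/-- weight of a place -/
noncomputable def vv (k m r i : ℕ) : ℝ :=
  if i % m = r then 1 / ∏ t ∈ range k, (qq (i + t) : ℝ) else 0

noncomputable def UU {k : ℕ} (B : Fin k → ℕ) (m r n : ℕ) : ℝ := ∑ i ∈ Ioc 0 n, uu B m r i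
noncomputable def VV (k m r n : ℕ) : ℝ := ∑ i ∈ Ioc 0 n, vv k m r i

lemma uu_nonneg {k : ℕ} (B : Fin k → ℕ) (m r i : ℕ) : 0 ≤ uu B m r i := by
  unfold uu; split_ifs <;> norm_num

lemma vv_nonneg (k m r i : ℕ) : 0 ≤ vv k m r i := by
  unfold vv; split_ifs
  · positivity
  · exact le_rfl

lemma mono_sum (f : ℕ → ℝ) (hf : ∀ i, 0 ≤ f i) : Monotone (fun n => ∑ i ∈ Ioc 0 n, f i) := by
  intro a b hab
  apply Finset.sum_le_sum_of_subset_of_nonneg
  · exact Finset.Ioc_subset_Ioc_right hab
  · intro i _ _; exact hf i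

lemma UU_mono {k : ℕ} (B : Fin k → ℕ) (m r : ℕ) : Monotone (UU B m r) := mono_sum _ (uu_nonneg B m r)
lemma VV_mono (k m r : ℕ) : Monotone (VV k m r) := mono_sum _ (vv_nonneg k m r)

lemma diff_sum (f : ℕ → ℝ) {a b : ℕ} (hab : a ≤ b) :
    ∑ i ∈ Ioc 0 b, f i - ∑ i ∈ Ioc 0 a, f i = ∑ i ∈ Ioc a b, f i := by
  rw [← Finset.sum_Ioc_consecutive f (Nat.zero_le a) hab]; ring

/-- increment of `U` over a period -/
lemma UU_period {k : ℕ} (hk : 1 ≤ k) (B : Fin k → ℕ) {m r j l : ℕ} (hB : ∀ t, B t < j + 1)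
    (hm : m ∣ Lam j) (hl : l < RR j) :
    UU B m r (ss j + (l + 1) * per j) - UU B m r (ss j + l * per j) =
      ∑ y ∈ range (Lam j), (if (ss j + y + 1) % m = r then (cnt B j y : ℝ) else 0) := by
  classical
  unfold UU
  rw [diff_sum _ (by nlinarith [per_pos j])]
  have e : ss j + (l + 1) * per j = ss j + l * per j + bb j ^ (j + 1) * Lam j := by
    unfold per; ring
  rw [e, sum_blocks, Finset.sum_comm]
  apply Finset.sum_congr rfl
  intro y hy
  rw [Finset.mem_range] at hy
  have hres : ∀ c, (ss j + l * per j + c * Lam j + y + 1) % m = (ss j + y + 1) % m := by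
    intro c
    obtain ⟨g, hg⟩ := hm
    have : ss j + l * per j + c * Lam j + y + 1 =
        (ss j + y + 1) + m * (g * (l * bb j ^ (j + 1) + c)) := by
      unfold per
      rw [hg]; ring
    rw [this, Nat.add_mul_mod_self_left]
  have h1 : ∀ c ∈ range (bb j ^ (j + 1)), uu B m r (ss j + l * per j + c * Lam j + y + 1) =
      if (ss j + y + 1) % m = r then (if oc B j c y then (1 : ℝ) else 0) else 0 := by
    intro c hc
    rw [Finset.mem_range] at hc
    unfold uu
    rw [hres]
    by_cases h : (ss j + y + 1) % m = r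
    · have h2 := occurs_iff hk B hB hl hc hy
      by_cases h3 : oc B j c y
      · rw [if_pos ⟨h, h2.2 h3⟩, if_pos h, if_pos h3]
      · rw [if_neg (fun h4 => h3 (h2.1 h4.2)), if_pos h, if_neg h3]
    · rw [if_neg (fun h4 => h h4.1), if_neg h]
  rw [Finset.sum_congr rfl h1]
  split_ifs with h
  · rw [Finset.sum_boole]
    unfold cnt
    rfl
  · simp

/-- increment of `U` over a period: estimates -/
lemma UU_period_bounds {k : ℕ} (hk : 1 ≤ k) (B : Fin k → ℕ) {m r j l : ℕ}
    (hB : ∀ t, B t < j + 1) (hkj : k ≤ j + 1) (hm : m ∣ Lam j) (hl : l < RR j) :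
    ((ss j + 1) % m = r →
      (Lam j : ℝ) * (bb j : ℝ) ^ (j + 1 - k) ≤
        UU B m r (ss j + (l + 1) * per j) - UU B m r (ss j + l * per j)) ∧
    UU B m r (ss j + (l + 1) * per j) - UU B m r (ss j + l * per j) ≤
      (if (ss j + 1) % m = r then (Lam j : ℝ) * (bb j : ℝ) ^ (j + 1 - k) else 0) +
        (bb j : ℝ) ^ (j + 1 - k) := by
  have hL := Lam_gt j
  have hL1 : (1 : ℝ) ≤ Lam j := by exact_mod_cast Lam_pos j
  have hbR : (0 : ℝ) < bb j := by exact_mod_cast bb_pos j
  rw [UU_period hk B hB hm hl]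
  obtain ⟨L', hL'⟩ : ∃ L', Lam j = L' + 1 := ⟨Lam j - 1, by omega⟩
  rw [hL', Finset.sum_range_succ', ← hL']
  have h0 : (cnt B j 0 : ℝ) = (Lam j : ℝ) * (bb j : ℝ) ^ (j + 1 - k) := by
    rw [cnt_zero hk B hB hkj]; push_cast; ring
  simp only [add_zero]
  rw [h0]
  have hnn : 0 ≤ ∑ y ∈ range L', (if (ss j + (y + 1) + 1) % m = r then (cnt B j (y + 1) : ℝ)
      else 0) := by
    apply Finset.sum_nonneg
    intro y _
    split_ifs <;> positivity
  refine ⟨fun h => ?_, ?_⟩
  · rw [if_pos h]; linarith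
  · -- upper bound
    have hterm : ∀ y ∈ range L', (if (ss j + (y + 1) + 1) % m = r then (cnt B j (y + 1) : ℝ)
        else 0) ≤ (bb j : ℝ) ^ (j + 1 - k) * (1 / 2) ^ (y + 1) := by
      intro y _
      have hcn : (cnt B j (y + 1) : ℝ) ≤ (bb j : ℝ) ^ (j + 1 - k) * (1 / 2) ^ (y + 1) := by
        by_cases hy : y + 1 + k ≤ j + 1
        · have h1 := cnt_le hk B hB (show 1 ≤ y + 1 by omega) hy
          have h2 : (cnt B j (y + 1) : ℝ) ≤ (Lam j : ℝ) * ((j : ℝ) + 1) ^ (y + 1) *
              (bb j : ℝ) ^ (j + 1 - k - (y + 1)) := by exact_mod_cast h1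
          refine h2.trans ?_
          have e1 : (bb j : ℝ) ^ (j + 1 - k) = (bb j : ℝ) ^ (j + 1 - k - (y + 1)) *
              (bb j : ℝ) ^ (y + 1) := by
            rw [← pow_add]; congr 1; omega
          have e2 : (bb j : ℝ) = 4 * ((j : ℝ) + 1) * Lam j := by
            unfold bb; push_cast; ring
          have e3 : (bb j : ℝ) ^ (y + 1) * (1 / 2) ^ (y + 1) =
              (2 * Lam j) ^ (y + 1) * ((j : ℝ) + 1) ^ (y + 1) := by
            rw [← mul_pow, ← mul_pow, e2]; congr 1; ring
          have e4 : (Lam j : ℝ) ≤ (2 * Lam j) ^ (y + 1) := by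
            calc (Lam j : ℝ) ≤ 2 * Lam j := by linarith
              _ = (2 * (Lam j : ℝ)) ^ 1 := (pow_one _).symm
              _ ≤ (2 * Lam j) ^ (y + 1) := pow_le_pow_right₀ (by linarith) (by omega)
          rw [e1, mul_assoc ((bb j : ℝ) ^ (j + 1 - k - (y + 1))), e3]
          have e5 : (0 : ℝ) ≤ (bb j : ℝ) ^ (j + 1 - k - (y + 1)) := by positivity
          have e6 : (0 : ℝ) ≤ ((j : ℝ) + 1) ^ (y + 1) := by positivity
          calc (Lam j : ℝ) * ((j : ℝ) + 1) ^ (y + 1) * (bb j : ℝ) ^ (j + 1 - k - (y + 1))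
              ≤ (2 * Lam j) ^ (y + 1) * ((j : ℝ) + 1) ^ (y + 1) *
                (bb j : ℝ) ^ (j + 1 - k - (y + 1)) := by gcongr
            _ = _ := by ring
        · rw [cnt_none B (by omega)]
          push_cast
          positivity
      split_ifs
      · exact hcn
      · exact le_trans (by positivity) hcn
    have hsum : ∑ y ∈ range L', (bb j : ℝ) ^ (j + 1 - k) * (1 / 2 : ℝ) ^ (y + 1) ≤
        (bb j : ℝ) ^ (j + 1 - k) := by
      rw [← Finset.mul_sum]
      apply mul_le_of_le_one_right (by positivity)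
      have : ∀ n : ℕ, ∑ y ∈ range n, (1 / 2 : ℝ) ^ (y + 1) = 1 - (1 / 2) ^ n := by
        intro n
        induction n with
        | zero => simp
        | succ n ih => rw [Finset.sum_range_succ, ih]; ring
      rw [this]
      have : (0 : ℝ) ≤ (1 / 2) ^ L' := by positivity
      linarith
    have h3 := (Finset.sum_le_sum hterm).trans hsum
    linarith

/-- weights in stage `j` -/
lemma vv_le {k m r j i : ℕ} (hi : ss j < i) :
    vv k m r i ≤ (if i % m = r then (1 : ℝ) else 0) * ((bb j : ℝ) ^ k)⁻¹ := by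
  have hbR : (0 : ℝ) < bb j := by exact_mod_cast bb_pos j
  unfold vv
  split_ifs
  · rw [one_mul, one_div]
    apply inv_anti₀ (by positivity)
    rw [← Finset.card_range k, ← Finset.prod_const, Finset.card_range]
    apply Finset.prod_le_prod (fun _ _ => hbR.le)
    intro t _
    have h1 : j ≤ st (i + t - 1) := by
      have h2 : st (ss j) = j := st_eq le_rfl (ss_strictMono (Nat.lt_succ_self j))
      calc j = st (ss j) := h2.symm
        _ ≤ st (i + t - 1) := st_mono (by omega)
    have h2 : bb j ≤ qq (i + t) := bb_mono h1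
    exact_mod_cast h2
  · simp

lemma vv_ge {k m r j i : ℕ} (hi1 : 1 ≤ i) (hi : i + k ≤ ss (j + 1) + 1) :
    (if i % m = r then (1 : ℝ) else 0) * ((bb j : ℝ) ^ k)⁻¹ ≤ vv k m r i := by
  have hbR : (0 : ℝ) < bb j := by exact_mod_cast bb_pos j
  unfold vv
  split_ifs
  · rw [one_mul, one_div]
    have hpos : (0 : ℝ) < ∏ t ∈ range k, (qq (i + t) : ℝ) := by
      apply Finset.prod_pos
      intro t _
      have := qq_ge2 (i + t)
      exact_mod_cast (by omega : 0 < qq (i + t))
    apply inv_anti₀ hpos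
    rw [← Finset.card_range k, ← Finset.prod_const, Finset.card_range]
    apply Finset.prod_le_prod (fun _ _ => by positivity)
    intro t ht
    rw [Finset.mem_range] at ht
    have h1 : st (i + t - 1) ≤ j := by
      by_contra hcon
      push Not at hcon
      have h2 := ss_st_le (i + t - 1)
      have h3 := ss_strictMono.monotone (show j + 1 ≤ st (i + t - 1) from hcon)
      omega
    have h2 : qq (i + t) ≤ bb j := bb_mono h1
    exact_mod_cast h2
  · simp

end Pool.Agent.Q48.CS
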