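import Mathlib
import Pool.Agent.Q48.CS.Sums

set_option autoImplicit false

/-! The limits for the example. -/

namespace Pool.Agent.Q48.CS

open Filter Topology Finset

lemma per_dvd {m j : ℕ} (hm : m ∣ Lam j) : m ∣ per j := hm.mul_right _

/-- lower bound for the weights of a whole stage -/
lemma VV_stage {k m r j : ℕ} (hm : 1 ≤ m) (hr : r < m) (hmj : m ≤ j + 2) (hkj : k ≤ j + 2) :
    ((j : ℝ) + 1) * per (j + 1) / m ≤ VV k m r (ss (j + 1)) := by
  have hbR : (1 : ℝ) ≤ bb (j + 1) := by exact_mod_cast bb_pos (j + 1)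
  have hmR : (0 : ℝ) < m := by exact_mod_cast hm
  obtain ⟨g, hg⟩ := per_dvd (dvd_Lam hm hmj)
  have h1 : ∑ i ∈ Ioc (ss j) (ss (j + 1)), (if i % m = r then (1 : ℝ) else 0) *
      ((bb (j + 1) : ℝ) ^ k)⁻¹ ≤ VV k m r (ss (j + 1)) := by
    unfold VV
    rw [← Finset.sum_Ioc_consecutive (fun i => vv k m r i) (Nat.zero_le (ss j))
      (ss_strictMono (Nat.lt_succ_self j)).le]
    have h2 : ∑ i ∈ Ioc (ss j) (ss (j + 1)), (if i % m = r then (1 : ℝ) else 0) *
      ((bb (j + 1) : ℝ) ^ k)⁻¹ ≤ ∑ i ∈ Ioc (ss j) (ss (j + 1)), vv k m r i := by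
      apply Finset.sum_le_sum
      intro i hi
      rw [Finset.mem_Ioc] at hi
      apply vv_ge (by omega)
      have h3 : ss (j + 1 + 1) = ss (j + 1) + RR (j + 1) * per (j + 1) := rfl
      have h4 : j + 2 ≤ per (j + 1) := per_ge (j + 1)
      have h5 : per (j + 1) ≤ RR (j + 1) * per (j + 1) := Nat.le_mul_of_pos_left _ (RR_pos _)
      omega
    have h3 : 0 ≤ ∑ i ∈ Ioc 0 (ss j), vv k m r i :=
      Finset.sum_nonneg (fun i _ => vv_nonneg _ _ _ _)
    linarith
  refine le_trans ?_ h1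
  rw [← Finset.sum_mul]
  have h2 : ss (j + 1) = ss j + (RR j * g) * m := by
    rw [ss_succ, hg]; ring
  rw [h2, sum_res _ _ _ _ hr]
  have h3 : (RR j : ℝ) = ((j : ℝ) + 1) * per (j + 1) * (bb (j + 1) : ℝ) ^ (j + 2) := by
    unfold RR; push_cast; ring
  have h4 : (1 : ℝ) ≤ g * m := by
    have : 1 ≤ g * m := by rw [mul_comm, ← hg]; exact per_pos j
    exact_mod_cast this
  have h5 : (bb (j + 1) : ℝ) ^ k ≤ (bb (j + 1) : ℝ) ^ (j + 2) := pow_le_pow_right₀ hbR hkj
  have h6 : (0 : ℝ) < (bb (j + 1) : ℝ) ^ k := by positivity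
  rw [div_le_iff₀ hmR]
  push_cast
  rw [h3]
  have h7 : (1 : ℝ) ≤ (bb (j + 1) : ℝ) ^ (j + 2) * ((bb (j + 1) : ℝ) ^ k)⁻¹ := by
    rw [← div_eq_mul_inv, le_div_iff₀ h6, one_mul]; exact h5
  have h8 : (0 : ℝ) ≤ ((j : ℝ) + 1) * per (j + 1) := by positivity
  calc ((j : ℝ) + 1) * per (j + 1) = ((j : ℝ) + 1) * per (j + 1) * (1 * 1) := by ring
    _ ≤ ((j : ℝ) + 1) * per (j + 1) * (((bb (j + 1) : ℝ) ^ (j + 2) *
        ((bb (j + 1) : ℝ) ^ k)⁻¹) * (g * m)) := by
        apply mul_le_mul_of_nonneg_left _ h8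
        exact mul_le_mul h7 h4 zero_le_one (by positivity)
    _ = _ := by ring

/-- increments of the weights over a period -/
lemma VV_period {k m r j l : ℕ} (hm : 1 ≤ m) (hr : r < m) (hmj : m ≤ j + 2) (hkj : k ≤ j + 1)
    (hl : l < RR j) :
    VV k m r (ss j + (l + 1) * per j) - VV k m r (ss j + l * per j) ≤
      (Lam j : ℝ) * (bb j : ℝ) ^ (j + 1 - k) / m ∧
    (Lam j : ℝ) * (bb j : ℝ) ^ (j + 1 - k) / m - k ≤
      VV k m r (ss j + (l + 1) * per j) - VV k m r (ss j + l * per j) := by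
  have hbR : (1 : ℝ) ≤ bb j := by exact_mod_cast bb_pos j
  have hb0 : (0 : ℝ) < bb j := by linarith
  have hmR : (0 : ℝ) < m := by exact_mod_cast hm
  obtain ⟨g, hg⟩ := per_dvd (dvd_Lam hm hmj)
  have e0 : ss j + (l + 1) * per j = ss j + l * per j + g * m := by
    rw [hg]; ring
  have hPg : (g : ℝ) * ((bb j : ℝ) ^ k)⁻¹ = (Lam j : ℝ) * (bb j : ℝ) ^ (j + 1 - k) / m := by
    have h1 : (per j : ℝ) = m * g := by exact_mod_cast hg
    have h2 : (per j : ℝ) = Lam j * (bb j : ℝ) ^ (j + 1) := by unfold per; push_cast; ring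
    have h3 : (bb j : ℝ) ^ (j + 1) = (bb j : ℝ) ^ (j + 1 - k) * (bb j : ℝ) ^ k := by
      rw [← pow_add]; congr 1; omega
    have h4 : (bb j : ℝ) ^ k ≠ 0 := by positivity
    rw [eq_div_iff hmR.ne', ← div_eq_mul_inv, div_mul_eq_mul_div, div_eq_iff h4, mul_assoc, ← h3,
      ← h2, h1]
    ring
  have hupper : ∀ i ∈ Ioc (ss j + l * per j) (ss j + (l + 1) * per j),
      vv k m r i ≤ (if i % m = r then (1 : ℝ) else 0) * ((bb j : ℝ) ^ k)⁻¹ := by
    intro i hi
    rw [Finset.mem_Ioc] at hi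
    exact vv_le (by omega)
  have hsum : ∑ i ∈ Ioc (ss j + l * per j) (ss j + (l + 1) * per j),
      (if i % m = r then (1 : ℝ) else 0) * ((bb j : ℝ) ^ k)⁻¹ =
      (Lam j : ℝ) * (bb j : ℝ) ^ (j + 1 - k) / m := by
    rw [← Finset.sum_mul, e0, sum_res _ _ _ _ hr, hPg]
  have hdiff : VV k m r (ss j + (l + 1) * per j) - VV k m r (ss j + l * per j) =
      ∑ i ∈ Ioc (ss j + l * per j) (ss j + (l + 1) * per j), vv k m r i :=
    diff_sum _ (by nlinarith [per_pos j])
  rw [hdiff]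
  refine ⟨(Finset.sum_le_sum hupper).trans hsum.le, ?_⟩
  -- lower bound: only the last `k` places can be different
  have hss : ss j + (l + 1) * per j ≤ ss (j + 1) := by
    rw [ss_succ]
    have := Nat.mul_le_mul_right (per j) (show l + 1 ≤ RR j from hl)
    omega
  have hkper : k ≤ per j := hkj.trans (per_ge j)
  set X := ss j + l * per j with hX
  have e1 : ss j + (l + 1) * per j = X + per j := by rw [hX]; ring
  rw [e1] at hsum ⊢
  have hsplit := Finset.sum_Ioc_consecutive (fun i => (if i % m = r then (1 : ℝ) else 0) *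
      ((bb j : ℝ) ^ k)⁻¹) (show X ≤ X + per j - k by omega) (show X + per j - k ≤ X + per j by omega)
  have hsplit2 := Finset.sum_Ioc_consecutive (fun i => vv k m r i)
    (show X ≤ X + per j - k by omega) (show X + per j - k ≤ X + per j by omega)
  have h1 : ∑ i ∈ Ioc (X + per j - k) (X + per j), (if i % m = r then (1 : ℝ) else 0) *
      ((bb j : ℝ) ^ k)⁻¹ ≤ k := by
    calc ∑ i ∈ Ioc (X + per j - k) (X + per j), (if i % m = r then (1 : ℝ) else 0) *
      ((bb j : ℝ) ^ k)⁻¹ ≤ ∑ i ∈ Ioc (X + per j - k) (X + per j), (1 : ℝ) := by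
          apply Finset.sum_le_sum
          intro i _
          have h2 : ((bb j : ℝ) ^ k)⁻¹ ≤ 1 := inv_le_one_of_one_le₀ (one_le_pow₀ hbR)
          split_ifs
          · rw [one_mul]; exact h2
          · simp
      _ = k := by
          rw [Finset.sum_const, Nat.card_Ioc, nsmul_eq_mul, mul_one]
          congr 1; omega
  have h2 : ∑ i ∈ Ioc X (X + per j - k), (if i % m = r then (1 : ℝ) else 0) *
      ((bb j : ℝ) ^ k)⁻¹ ≤ ∑ i ∈ Ioc X (X + per j - k), vv k m r i := by
    apply Finset.sum_le_sum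
    intro i hi
    rw [Finset.mem_Ioc] at hi
    apply vv_ge (by omega)
    omega
  have h3 : 0 ≤ ∑ i ∈ Ioc (X + per j - k) (X + per j), vv k m r i :=
    Finset.sum_nonneg (fun i _ => vv_nonneg _ _ _ _)
  rw [hsum] at hsplit
  linarith

lemma VV_tendsto {k m r : ℕ} (hm : 1 ≤ m) (hr : r < m) : Tendsto (VV k m r) atTop atTop := by
  rw [Filter.tendsto_atTop_atTop]
  intro C
  obtain ⟨j0, hj0⟩ := exists_nat_ge (C * m)
  set j := max j0 (max m k) with hj
  refine ⟨ss (j + 1), fun n hn => ?_⟩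
  have h1 := VV_stage (k := k) (j := j) hm hr (by
    have := (le_max_left m k).trans (le_max_right j0 (max m k)); omega) (by
    have := (le_max_right m k).trans (le_max_right j0 (max m k)); omega)
  have hmR : (0 : ℝ) < m := by exact_mod_cast hm
  have h2 : C ≤ ((j : ℝ) + 1) * per (j + 1) / m := by
    rw [le_div_iff₀ hmR]
    have h3 : (j0 : ℝ) ≤ j := by exact_mod_cast le_max_left _ _
    have h4 : (1 : ℝ) ≤ per (j + 1) := by exact_mod_cast per_pos _
    nlinarith
  exact h2.trans (h1.trans (VV_mono k m r hn))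

/-- the two limits -/
theorem limits {k : ℕ} (hk : 1 ≤ k) (B : Fin k → ℕ) {m r : ℕ} (hm : 1 ≤ m) (hr : r < m) (sp : Prop)
    (hsp : sp → ∀ᶠ j in atTop, (ss j + 1) % m = r)
    (hnsp : ¬ sp → ∀ᶠ j in atTop, (ss j + 1) % m ≠ r) :
    (sp → Tendsto (fun n => UU B m r n / VV k m r n) atTop (𝓝 m)) ∧
    (¬ sp → Tendsto (fun n => UU B m r n / VV k m r n) atTop (𝓝 0)) := by
  have hmR : (1 : ℝ) ≤ m := by exact_mod_cast hm
  have hm0 : (0 : ℝ) < m := by linarith
  obtain ⟨Bm, hBm⟩ : ∃ Bm, ∀ t, B t ≤ Bm :=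
    ⟨Finset.univ.sup B, fun t => Finset.le_sup (f := B) (Finset.mem_univ t)⟩
  -- Lam j tends to infinity
  have hLam : Tendsto (fun j => (Lam j : ℝ)) atTop atTop := by
    apply tendsto_natCast_atTop_atTop.comp
    apply Filter.tendsto_atTop_mono (f := fun j : ℕ => j) _ tendsto_id
    intro j
    have := Lam_gt j
    omega
  -- common estimates
  have common : ∀ ε : ℝ, 0 < ε → ∀ᶠ j in atTop, ∀ l < RR j, ∀ c : ℝ,
      (((ss j + 1) % m = r ∧ c = m) ∨ ((ss j + 1) % m ≠ r ∧ c = 0)) →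
      |(UU B m r (ss j + (l + 1) * per j) - UU B m r (ss j + l * per j)) -
        c * (VV k m r (ss j + (l + 1) * per j) - VV k m r (ss j + l * per j))| ≤
          ε * (VV k m r (ss j + (l + 1) * per j) - VV k m r (ss j + l * per j)) ∧
      VV k m r (ss j + (l + 1) * per j) - VV k m r (ss j + l * per j) ≤ ε * VV k m r (ss j) := by
    intro ε hε
    filter_upwards [hLam.eventually (eventually_ge_atTop (2 * m * k + (1 + m * k) * (2 * m) / ε)),
      eventually_ge_atTop (m + k + Bm + 1), eventually_ge_atTop (⌈1 / ε⌉₊ + 1)] with j hj1 hj2 hj3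
    intro l hl c hc
    have hB : ∀ t, B t < j + 1 := fun t => by have := hBm t; omega
    have hml : m ∣ Lam j := dvd_Lam hm (by omega)
    obtain ⟨hU1, hU2⟩ := UU_period_bounds (l := l) (r := r) hk B hB (by omega) hml hl
    obtain ⟨hV1, hV2⟩ := VV_period (k := k) (m := m) (r := r) (j := j) (l := l) hm hr (by omega)
      (by omega) hl
    set ΔU := UU B m r (ss j + (l + 1) * per j) - UU B m r (ss j + l * per j) with hΔU
    set ΔV := VV k m r (ss j + (l + 1) * per j) - VV k m r (ss j + l * per j) with hΔV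
    have hbR : (1 : ℝ) ≤ bb j := by exact_mod_cast bb_pos j
    set b' : ℝ := (bb j : ℝ) ^ (j + 1 - k) with hb'
    have hb'1 : 1 ≤ b' := one_le_pow₀ hbR
    set L : ℝ := (Lam j : ℝ) with hL
    have hL0 : 0 < L := by rw [hL]; exact_mod_cast Lam_pos j
    have hkR : (0 : ℝ) ≤ k := Nat.cast_nonneg k
    have hLk : 2 * m * k ≤ L := by
      have : 0 ≤ (1 + m * k) * (2 * m) / ε := by positivity
      linarith
    have hLε : (1 + m * k) * (2 * m) ≤ ε * L := by
      have h1 : (1 + m * k) * (2 * m) / ε ≤ L := by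
        have : (0 : ℝ) ≤ 2 * m * k := by positivity
        linarith
      rw [div_le_iff₀ hε] at h1
      linarith
    -- ΔV ≥ L b' / (2 m)
    have hVlow : L * b' / (2 * m) ≤ ΔV := by
      have h1 : (k : ℝ) ≤ L * b' / (2 * m) := by
        rw [le_div_iff₀ (by positivity)]
        nlinarith
      have h2 : L * b' / m = L * b' / (2 * m) + L * b' / (2 * m) := by field_simp; ring
      linarith
    have hmkb : (1 + m * k) * b' ≤ ε * ΔV := by
      calc (1 + m * k) * b' ≤ (ε * L / (2 * m)) * b' := by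
            apply mul_le_mul_of_nonneg_right _ (by linarith)
            rw [le_div_iff₀ (by positivity)]; exact hLε
        _ = ε * (L * b' / (2 * m)) := by ring
        _ ≤ ε * ΔV := mul_le_mul_of_nonneg_left hVlow hε.le
    refine ⟨?_, ?_⟩
    · rcases hc with ⟨h1, rfl⟩ | ⟨h1, rfl⟩
      · have h2 := hU1 h1
        rw [if_pos h1] at hU2
        have h3 : m * ΔV ≤ L * b' := by
          calc m * ΔV ≤ m * (L * b' / m) := mul_le_mul_of_nonneg_left hV1 hm0.le
            _ = L * b' := by field_simp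
        have h4 : L * b' - m * k ≤ m * ΔV := by
          calc L * b' - m * k = m * (L * b' / m - k) := by field_simp
            _ ≤ m * ΔV := mul_le_mul_of_nonneg_left hV2 hm0.le
        have h5 : (m : ℝ) * k ≤ m * k * b' := le_mul_of_one_le_right (by positivity) hb'1
        rw [abs_le]
        constructor <;> nlinarith
      · rw [if_neg h1] at hU2
        rw [zero_mul, sub_zero, abs_of_nonneg]
        · have h5 : (0 : ℝ) ≤ m * k * b' := by positivity
          nlinarith
        · rw [hΔU, sub_nonneg]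
          exact UU_mono B m r (by nlinarith [per_pos j])
    · -- ΔV ≤ ε V
      obtain ⟨j', rfl⟩ : ∃ j', j = j' + 1 := ⟨j - 1, by omega⟩
      have h1 := VV_stage (k := k) (m := m) (r := r) (j := j') hm hr (by omega) (by omega)
      have h2 : ΔV ≤ per (j' + 1) / m := by
        refine hV1.trans ?_
        apply div_le_div_of_nonneg_right _ hm0.le
        have h3 : (per (j' + 1) : ℝ) = L * (bb (j' + 1) : ℝ) ^ (j' + 1 + 1) := by
          rw [hL]; unfold per; push_cast; ring
        rw [h3]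
        apply mul_le_mul_of_nonneg_left _ hL0.le
        exact pow_le_pow_right₀ hbR (by omega)
      have h3 : (1 : ℝ) ≤ ε * ((j' : ℝ) + 1) := by
        have h4 : 1 / ε ≤ ⌈1 / ε⌉₊ := Nat.le_ceil _
        have h5 : ((⌈1 / ε⌉₊ : ℕ) : ℝ) ≤ j' := by exact_mod_cast (by omega : ⌈1 / ε⌉₊ ≤ j')
        have h6 : 1 / ε ≤ (j' : ℝ) + 1 := by linarith
        rw [div_le_iff₀ hε] at h6
        linarith
      have h4 : (0 : ℝ) ≤ per (j' + 1) / m := by positivity
      calc ΔV ≤ 1 * (per (j' + 1) / m) := by rw [one_mul]; exact h2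
        _ ≤ (ε * ((j' : ℝ) + 1)) * (per (j' + 1) / m) := mul_le_mul_of_nonneg_right h3 h4
        _ = ε * (((j' : ℝ) + 1) * per (j' + 1) / m) := by ring
        _ ≤ ε * VV k m r (ss (j' + 1)) := mul_le_mul_of_nonneg_left h1 hε.le
  constructor
  · intro h
    apply ratio_lemma ss RR per ss_succ RR_pos per_pos _ _ (UU_mono B m r) (VV_mono k m r)
      (VV_tendsto hm hr) m hm0.le
    intro ε hε
    obtain ⟨J, hJ⟩ := eventually_atTop.1 ((common ε hε).and (hsp h))
    exact ⟨J, fun j hj l hl => (hJ j hj).1 l hl m (Or.inl ⟨(hJ j hj).2, rfl⟩)⟩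
  · intro h
    apply ratio_lemma ss RR per ss_succ RR_pos per_pos _ _ (UU_mono B m r) (VV_mono k m r)
      (VV_tendsto hm hr) 0 le_rfl
    intro ε hε
    obtain ⟨J, hJ⟩ := eventually_atTop.1 ((common ε hε).and (hnsp h))
    exact ⟨J, fun j hj l hl => (hJ j hj).1 l hl 0 (Or.inr ⟨(hJ j hj).2, rfl⟩)⟩

/-- the residues of the starting places of the stages are eventually constant -/
lemma ss_mod {m : ℕ} (hm : 1 ≤ m) : ∀ j, m ≤ j → (ss j + 1) % m = (ss m + 1) % m := by
  intro j hj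
  induction j, hj using Nat.le_induction with
  | base => rfl
  | succ j hj ih =>
    rw [← ih, ss_succ]
    obtain ⟨g, hg⟩ := per_dvd (dvd_Lam hm (show m ≤ j + 2 by omega))
    rw [hg, show ss j + RR j * (m * g) + 1 = ss j + 1 + m * (RR j * g) by ring,
      Nat.add_mul_mod_self_left]

end Pool.Agent.Q48.CS
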